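import Mathlib
import Pool.Agent.Lib.MP_087bf0_co.Defs
import Pool.Agent.Lib.MP_087bf0_co.Exact

open scoped ENNReal Real
open MP087bf0

/-- There is an absolute constant `c > 0` such that for every `d ≥ 2`:
for all large `n`, every sequence `V` of `n` unit vectors of `ℝ^d` has
`Pr(‖σ_V‖₂ ≤ √d) ≥ c (8d/π)^{d/2} n^{-d/2}`, and
`c (8d/π)^{d/2} ≤ f_{d,√d} ≤ (8d/π)^{d/2}`. -/
theorem Pool.Agent.Results.MP_087bf0_co.ExactOrder.result :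
    ∃ c : ℝ, 0 < c ∧ ∀ d : ℕ, 2 ≤ d →
      (∀ᶠ n : ℕ in Filter.atTop, ∀ V : Fin n → EuclideanSpace ℝ (Fin d), (∀ i, ‖V i‖ = 1) →
        c * (8 * (d:ℝ) / π) ^ ((d:ℝ)/2) / (n:ℝ) ^ ((d:ℝ)/2) ≤ prob V (√(d:ℝ))) ∧
      ENNReal.ofReal (c * (8 * (d:ℝ) / π) ^ ((d:ℝ)/2)) ≤ f d (√(d:ℝ)) ∧
      f d (√(d:ℝ)) ≤ ENNReal.ofReal ((8 * (d:ℝ) / π) ^ ((d:ℝ)/2)) :=
  exact_main
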